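import Mathlib
import Pool.Agent.H944Z.KormanMain

set_option autoImplicit false

namespace Pool.Agent.Results.MP_eab5ac_an.Counterexample

open Set

/-- In dimension `n = 4` there is a positive `C¹` nonlinearity `f (r, u)` on `[0,1] × [0,∞)` with
`f_r ≤ 0` for which two positive classical solutions of
`u'' + (n - 1) / r * u' + l * f (r, u) = 0`, `u' 0 = u 1 = 0`, with different parameters `l`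
have the same value `u 0`. -/
theorem result :
    ∃ (n : ℝ) (f : ℝ → ℝ → ℝ) (l₁ l₂ : ℝ) (u₁ u₂ : ℝ → ℝ),
      n = 4 ∧
      ContDiffOn ℝ 1 (fun p : ℝ × ℝ => f p.1 p.2) (Icc (0 : ℝ) 1 ×ˢ Ici (0 : ℝ)) ∧
      (∀ r ∈ Icc (0 : ℝ) 1, ∀ u : ℝ, 0 ≤ u → derivWithin (fun s => f s u) (Icc 0 1) r ≤ 0) ∧
      (∀ r ∈ Icc (0 : ℝ) 1, ∀ u : ℝ, 0 ≤ u → 0 < f r u) ∧
      0 < l₁ ∧ 0 < l₂ ∧ l₁ ≠ l₂ ∧
      (ContDiff ℝ 2 u₁ ∧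
        (∀ r ∈ Ioo (0 : ℝ) 1,
          deriv (deriv u₁) r + (n - 1) / r * deriv u₁ r + l₁ * f r (u₁ r) = 0) ∧
        deriv u₁ 0 = 0 ∧ u₁ 1 = 0 ∧ ∀ r ∈ Ico (0 : ℝ) 1, 0 < u₁ r) ∧
      (ContDiff ℝ 2 u₂ ∧
        (∀ r ∈ Ioo (0 : ℝ) 1,
          deriv (deriv u₂) r + (n - 1) / r * deriv u₂ r + l₂ * f r (u₂ r) = 0) ∧
        deriv u₂ 0 = 0 ∧ u₂ 1 = 0 ∧ ∀ r ∈ Ico (0 : ℝ) 1, 0 < u₂ r) ∧
      u₁ 0 = u₂ 0 := by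
  obtain ⟨f, l₁, l₂, u₁, u₂, h⟩ := Pool.Agent.H944Z.Korman.main
  exact ⟨4, f, l₁, l₂, u₁, u₂, rfl, h⟩

end Pool.Agent.Results.MP_eab5ac_an.Counterexample
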